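import Pool.Agent.H110R3.Urn.Stmts

set_option autoImplicit false

open Finset

namespace Pool.Agent.H157R3.Urn

open Pool.Agent.H110R3.Urn

lemma one_sub_pp {α a b : ℝ} (ha : 0 < a) (hb : 0 < b) : 1 - pp α a b = pp α b a := by
  unfold pp
  have h1 : 0 < a ^ α := Real.rpow_pos_of_pos ha α
  have h2 : 0 < b ^ α := Real.rpow_pos_of_pos hb α
  have h3 : a ^ α + b ^ α ≠ 0 := by positivity
  have h4 : b ^ α + a ^ α ≠ 0 := by positivity
  field_simp
  ring

lemma pp_pos {α a b : ℝ} (ha : 0 < a) (hb : 0 < b) : 0 < pp α a b := by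
  unfold pp
  have h1 : 0 < a ^ α := Real.rpow_pos_of_pos ha α
  have h2 : 0 < b ^ α := Real.rpow_pos_of_pos hb α
  positivity

lemma ww_symm {α a b : ℝ} (ha : 0 < a) (hb : 0 < b) : ww α a b = ww α b a := by
  unfold ww
  rw [one_sub_pp ha hb, one_sub_pp hb ha, mul_comm]

lemma ww_pos {α a b : ℝ} (ha : 0 < a) (hb : 0 < b) : 0 < ww α a b := by
  unfold ww
  rw [one_sub_pp ha hb]
  exact mul_pos (pp_pos ha hb) (pp_pos hb ha)

section

variable {m : ℕ} (W : Fin m → Fin m → ℝ) (β : ℝ) (v : Fin m → ℝ)

/-- the symmetric operator `H` -/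
def Hop (y : Fin m → ℝ) (i : Fin m) : ℝ := -(v i * y i) + β * ∑ j, W i j * (y i - y j)

/-- its matrix -/
def Hm (i j : Fin m) : ℝ := (if i = j then -(v i) + β * ∑ k, W i k else 0) - β * W i j

lemma Hm_symm (hW : ∀ i j, W i j = W j i) (i j : Fin m) : Hm W β v i j = Hm W β v j i := by
  unfold Hm
  rw [hW i j]
  by_cases h : i = j
  · subst h; rfl
  · rw [if_neg h, if_neg (Ne.symm h)]

lemma Hm_sum (hW : ∀ i j, W i j = W j i) (y : Fin m → ℝ) (j : Fin m) :
    ∑ i, Hm W β v i j * y i = Hop W β v y j := by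
  unfold Hm Hop
  simp only [sub_mul, sum_sub_distrib, ite_mul, zero_mul]
  rw [Finset.sum_ite_eq' univ j]
  simp only [mem_univ, if_true, mul_sub, sum_sub_distrib]
  have h1 : ∑ i, β * W i j * y i = β * ∑ k, W j k * y k := by
    rw [mul_sum]
    apply sum_congr rfl
    intro k _
    rw [hW k j]; ring
  rw [h1, ← sum_mul]
  ring

lemma Hop_symm (hW : ∀ i j, W i j = W j i) (u y : Fin m → ℝ) :
    ∑ j, u j * Hop W β v y j = ∑ j, y j * Hop W β v u j := by
  have h1 : ∀ a b : Fin m → ℝ, ∑ j, a j * Hop W β v b j =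
      ∑ j, ∑ i, Hm W β v i j * b i * a j := by
    intro a b
    apply sum_congr rfl
    intro j _
    rw [← Hm_sum W β v hW b j, mul_sum]
    apply sum_congr rfl
    intro i _
    ring
  rw [h1, h1, sum_comm]
  apply sum_congr rfl
  intro i _
  apply sum_congr rfl
  intro j _
  rw [Hm_symm W β v hW i j]
  ring

/-- `z ↦ H (z / v)` as a linear map -/
noncomputable def Lm : (Fin m → ℝ) →ₗ[ℝ] (Fin m → ℝ) where
  toFun z := Hop W β v (fun i => z i / v i)
  map_add' z z' := by
    ext i
    simp only [Hop, Pi.add_apply, add_div]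
    have : ∑ j, W i j * (z i / v i + z' i / v i - (z j / v j + z' j / v j)) =
        ∑ j, W i j * (z i / v i - z j / v j) + ∑ j, W i j * (z' i / v i - z' j / v j) := by
      rw [← sum_add_distrib]
      exact sum_congr rfl (fun _ _ => by ring)
    rw [this]
    ring
  map_smul' c z := by
    ext i
    simp only [Hop, Pi.smul_apply, smul_eq_mul, RingHom.id_apply, mul_div_assoc]
    have : ∑ j, W i j * (c * (z i / v i) - c * (z j / v j)) =
        c * ∑ j, W i j * (z i / v i - z j / v j) := by
      rw [mul_sum]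
      exact sum_congr rfl (fun _ _ => by ring)
    rw [this]
    ring

end

theorem taskR2 : TaskR2 := by
  intro hR1 m G _ hm hNE α v hα heq hv hnd
  obtain ⟨μ, u, hμ, hu, heig⟩ := hR1 m G hm hNE α v hα heq hv
  have hNEr : (0 : ℝ) < NE G := by exact_mod_cast hNE
  set W : Fin m → Fin m → ℝ := fun i j => if G.Adj i j then ww α (v i) (v j) else 0 with hWdef
  set β : ℝ := α / NE G with hβ
  have hWs : ∀ i j, W i j = W j i := by
    intro i j
    simp only [hWdef]
    by_cases h : G.Adj i j
    · rw [if_pos h, if_pos h.symm, ww_symm (hv i) (hv j)]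
    · rw [if_neg h, if_neg (fun h' => h h'.symm)]
  have hWsum : ∀ (y : Fin m → ℝ) (i : Fin m),
      (∑ j, if G.Adj i j then ww α (v i) (v j) * (y i - y j) else 0) = ∑ j, W i j * (y i - y j) := by
    intro y i
    apply sum_congr rfl
    intro j _
    simp only [hWdef]
    split_ifs <;> simp
  have hHu : ∀ i, Hop W β v u i = μ * (v i * u i) := by
    intro i
    have := heig i
    rw [hWsum] at this
    exact this
  have hJJ : ∀ z i, JJ G α v z i = NE G * Lm W β v z i := by
    intro z i
    have h1 := hWsum (fun i => z i / v i) i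
    show JJ G α v z i = NE G * Hop W β v (fun i => z i / v i) i
    unfold JJ Hop
    rw [h1, hβ]
    have h2 : v i ≠ 0 := (hv i).ne'
    have h3 : (NE G : ℝ) ≠ 0 := hNEr.ne'
    field_simp
    ring
  -- injectivity
  have hinj : LinearMap.ker (Lm W β v) = ⊥ := by
    rw [LinearMap.ker_eq_bot']
    intro z hz
    have h1 : ∀ i, z i / v i = 0 := by
      apply hnd
      · intro i hi
        exact absurd hi (hv i).ne'
      · intro i _
        have h2 : Lm W β v z i = 0 := by rw [hz]; rfl
        have h3 : Hop W β v (fun i => z i / v i) i = 0 := h2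
        unfold Hop at h3
        have h4 := hWsum (fun i => z i / v i) i
        have h5 : (∑ j, if G.Adj i j ∧ v j ≠ 0 then ww α (v i) (v j) * (z i / v i - z j / v j) else 0) =
            ∑ j, W i j * (z i / v i - z j / v j) := by
          rw [← h4]
          apply sum_congr rfl
          intro j _
          have := (hv j).ne'
          simp [this]
        rw [h5]
        rw [hβ] at h3
        have h6 : (NE G : ℝ) ≠ 0 := hNEr.ne'
        field_simp at h3 ⊢
        linarith
    ext i
    have := h1 i
    have h2 : v i ≠ 0 := (hv i).ne'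
    rw [div_eq_zero_iff] at this
    rcases this with h | h
    · exact h
    · exact absurd h h2
  obtain ⟨K, hK, hanti⟩ := LinearMap.exists_antilipschitzWith (Lm W β v) hinj
  -- v ≤ 1
  have hv1 : ∀ i, v i ≤ 1 := by
    intro i
    have h1 := heq.1.2.1
    rw [← h1]
    exact Finset.single_le_sum (fun j _ => (hv j).le) (mem_univ i)
  -- the two parts of the noise form
  set R : Fin m → Fin m → ℝ := fun i j => Hm W β v i j / (v i * v j) with hRdef
  set A : ℝ := ∑ e : Ed G, ww α (v e.1.1) (v e.1.2) * (u e.1.1 - u e.1.2) ^ 2 with hA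
  set B : ℝ := ∑ e : Ed G, ww α (v e.1.1) (v e.1.2) *
    (R e.1.1 e.1.1 - 2 * R e.1.1 e.1.2 + R e.1.2 e.1.2) with hB
  have hAnn : ∀ e ∈ (univ : Finset (Ed G)), 0 ≤ ww α (v e.1.1) (v e.1.2) * (u e.1.1 - u e.1.2) ^ 2 :=
    fun e _ => mul_nonneg (ww_pos (hv _) (hv _)).le (sq_nonneg _)
  have hApos : 0 < A := by
    rcases (sum_nonneg hAnn).lt_or_eq with h | h
    · exact h
    · exfalso
      have h1 := (sum_eq_zero_iff_of_nonneg hAnn).mp h.symm
      have h2 : ∀ i j, i < j → G.Adj i j → u i = u j := by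
        intro i j hij hadj
        have h3 := h1 ⟨(i, j), hij, hadj⟩ (mem_univ _)
        simp only at h3
        rcases mul_eq_zero.mp h3 with h4 | h4
        · exact absurd h4 (ww_pos (hv _) (hv _)).ne'
        · have := pow_eq_zero_iff (n := 2) (by norm_num) |>.mp h4
          linarith
      have h3 : ∀ i j, G.Adj i j → u i = u j := by
        intro i j hadj
        rcases lt_trichotomy i j with h | h | h
        · exact h2 i j h hadj
        · rw [h]
        · exact (h2 j i h hadj.symm).symm
      apply hu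
      ext i
      have h4 := heig i
      have h5 : (∑ j, if G.Adj i j then ww α (v i) (v j) * (u i - u j) else 0) = 0 := by
        apply sum_eq_zero
        intro j _
        split_ifs with h
        · rw [h3 i j h]; ring
        · rfl
      rw [h5, mul_zero, add_zero] at h4
      have h6 : (1 + μ) * v i * u i = 0 := by linarith
      rcases mul_eq_zero.mp h6 with h7 | h7
      · exfalso
        have : 0 < (1 + μ) * v i := mul_pos (by linarith) (hv i)
        linarith
      · exact h7
  set ε : ℝ := A / (2 * (|B| + 1)) with hε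
  have hεpos : 0 < ε := by positivity
  have hmr : (0 : ℝ) < m := by exact_mod_cast hm
  have hKr : (0 : ℝ) < K := by exact_mod_cast hK
  refine ⟨fun i j => u i * u j + ε * R i j, ε * NE G / (m * (K : ℝ) ^ 2), A / 2, by positivity,
    by positivity, ?_, ?_, ?_⟩
  · intro i j
    simp only [hRdef]
    rw [Hm_symm W β v hWs i j, mul_comm (u i), mul_comm (v i)]
  · intro z
    -- right side
    set L := Lm W β v z with hL
    have e1 : ∑ i, ∑ j, (u i * u j + ε * R i j) * z i * JJ G α v z j =
        NE G * μ * (∑ i, u i * z i) ^ 2 + ε * NE G * ∑ j, L j ^ 2 / v j := by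
      have p1 : ∑ i, ∑ j, (u i * u j + ε * R i j) * z i * JJ G α v z j =
          NE G * ((∑ i, u i * z i) * ∑ j, u j * L j) +
            ε * NE G * ∑ j, (∑ i, R i j * z i) * L j := by
        rw [sum_mul_sum]
        simp only [mul_sum, sum_mul]
        rw [sum_comm (f := fun j i => ε * NE G * (R i j * z i * L j)), ← sum_add_distrib]
        apply sum_congr rfl
        intro i _
        rw [← sum_add_distrib]
        apply sum_congr rfl
        intro j _
        rw [hJJ]
        ring
      have p2 : ∑ j, u j * L j = μ * ∑ i, u i * z i := by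
        have := Hop_symm W β v hWs u (fun i => z i / v i)
        have q1 : ∀ j, L j = Hop W β v (fun i => z i / v i) j := fun j => rfl
        simp only [q1]
        rw [this, mul_sum]
        apply sum_congr rfl
        intro i _
        rw [hHu]
        have := (hv i).ne'
        field_simp
      have p3 : ∀ j, ∑ i, R i j * z i = L j / v j := by
        intro j
        have q1 : L j = Hop W β v (fun i => z i / v i) j := rfl
        rw [q1, ← Hm_sum W β v hWs (fun i => z i / v i) j, sum_div]
        apply sum_congr rfl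
        intro i _
        simp only [hRdef]
        have h1 := (hv i).ne'
        have h2 := (hv j).ne'
        field_simp
      rw [p1, p2]
      simp only [p3]
      have p4 : ∑ j, L j / v j * L j = ∑ j, L j ^ 2 / v j :=
        sum_congr rfl (fun j _ => by ring)
      rw [p4]
      ring
    rw [e1]
    -- left side
    have h1 : ∀ i, z i ^ 2 ≤ (K : ℝ) ^ 2 * ∑ j, L j ^ 2 / v j := by
      intro i
      have h2 : ‖z‖ ≤ K * ‖L‖ := by
        have := hanti.le_mul_dist z 0
        rw [map_zero, dist_zero_right, dist_zero_right] at this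
        exact this
      have h3 : |z i| ≤ ‖z‖ := norm_le_pi_norm z i
      have h4 : ‖L‖ ^ 2 ≤ ∑ j, L j ^ 2 / v j := by
        have hne : (univ : Finset (Fin m)).Nonempty := ⟨⟨0, hm⟩, mem_univ _⟩
        obtain ⟨k, _, hk⟩ := Finset.exists_max_image univ (fun k => |L k|) hne
        have hk2 : ‖L‖ ≤ |L k| := by
          rw [pi_norm_le_iff_of_nonneg (abs_nonneg _)]
          intro i
          exact hk i (mem_univ _)
        calc ‖L‖ ^ 2 ≤ |L k| ^ 2 := pow_le_pow_left₀ (norm_nonneg _) hk2 2
          _ = L k ^ 2 := sq_abs _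
          _ ≤ L k ^ 2 / v k := by
              rw [le_div_iff₀ (hv k)]
              nlinarith [sq_nonneg (L k), hv1 k]
          _ ≤ _ := Finset.single_le_sum (f := fun j => L j ^ 2 / v j)
              (fun j _ => div_nonneg (sq_nonneg _) (hv j).le) (mem_univ k)
      calc z i ^ 2 = |z i| ^ 2 := (sq_abs _).symm
        _ ≤ (K * ‖L‖) ^ 2 := by
            apply pow_le_pow_left₀ (abs_nonneg _) (h3.trans h2)
        _ = (K : ℝ) ^ 2 * ‖L‖ ^ 2 := by ring
        _ ≤ _ := by gcongr
    have h2 : ∑ i, z i ^ 2 ≤ m * ((K : ℝ) ^ 2 * ∑ j, L j ^ 2 / v j) := by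
      calc ∑ i, z i ^ 2 ≤ ∑ _i : Fin m, (K : ℝ) ^ 2 * ∑ j, L j ^ 2 / v j := sum_le_sum (fun i _ => h1 i)
        _ = _ := by simp
    have h3 : 0 ≤ NE G * μ * (∑ i, u i * z i) ^ 2 := by positivity
    calc ε * NE G / (m * (K : ℝ) ^ 2) * ∑ i, z i ^ 2
        ≤ ε * NE G / (m * (K : ℝ) ^ 2) * (m * ((K : ℝ) ^ 2 * ∑ j, L j ^ 2 / v j)) := by gcongr
      _ = ε * NE G * ∑ j, L j ^ 2 / v j := by field_simp
      _ ≤ _ := by linarith
  · have e2 : ∑ e : Ed G, ww α (v e.1.1) (v e.1.2) *
        ((u e.1.1 * u e.1.1 + ε * R e.1.1 e.1.1) - 2 * (u e.1.1 * u e.1.2 + ε * R e.1.1 e.1.2) +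
          (u e.1.2 * u e.1.2 + ε * R e.1.2 e.1.2)) = A + ε * B := by
      rw [hA, hB, mul_sum, ← sum_add_distrib]
      apply sum_congr rfl
      intro e _
      ring
    rw [e2]
    have h1 : ε * |B| ≤ A / 2 := by
      rw [hε]
      have h2 : |B| / (|B| + 1) ≤ 1 := by
        rw [div_le_one (by positivity)]
        linarith
      calc A / (2 * (|B| + 1)) * |B| = A / 2 * (|B| / (|B| + 1)) := by field_simp
        _ ≤ A / 2 * 1 := by gcongr
        _ = A / 2 := mul_one _
    have h2 : -(ε * |B|) ≤ ε * B := by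
      have := neg_abs_le B
      nlinarith
    linarith

end Pool.Agent.H157R3.Urn
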